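import Pool.Agent.Helper20.HP.KKDefs

/-!
# Change of basis in the plane for the curvature numerator (HOPF-P4)
-/

open Filter Metric Module Set
open scoped Topology ContDiff RealInnerProductSpace Manifold

namespace Pool.Agent.Helper93.HP
open Pool.Agent.Helper20.PC Pool.Agent.Helper20.HP

section
variable {F : Type*} [NormedAddCommGroup F] [NormedSpace ℝ F]
  {G : F → F →L[ℝ] F →L[ℝ] ℝ} {z : F}

theorem dG_lin_left (h : ContDiffAt ℝ 2 G z) (a b : ℝ) (s u v w : F) :
    dG G z s (a • u + b • v) w = a * dG G z s u w + b * dG G z s v w := by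
  have h1 : HasFDerivAt (fun z' => a * G z' u w + b * G z' v w)
      (a • fderiv ℝ (fun z' => G z' u w) z + b • fderiv ℝ (fun z' => G z' v w) z) z :=
    (((smooth2 h u w).differentiableAt (by norm_num)).hasFDerivAt.const_mul a).add
      (((smooth2 h v w).differentiableAt (by norm_num)).hasFDerivAt.const_mul b)
  have h2 : (fun z' => G z' (a • u + b • v) w) = fun z' => a * G z' u w + b * G z' v w := by
    funext z'
    simp
  rw [dG, h2, h1.fderiv]
  simp [dG]

theorem dG_lin_dir (a b : ℝ) (s t u v : F) :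
    dG G z (a • s + b • t) u v = a * dG G z s u v + b * dG G z t u v := by
  simp [dG]

theorem ddG_lin_left (h : MetAt G z) (a b : ℝ) (s t u v w : F) :
    ddG G z s t (a • u + b • v) w = a * ddG G z s t u w + b * ddG G z s t v w := by
  have h1 : HasFDerivAt (fun z' => a * dG G z' t u w + b * dG G z' t v w)
      (a • fderiv ℝ (fun z' => dG G z' t u w) z + b • fderiv ℝ (fun z' => dG G z' t v w) z) z :=
    ((hasFDerivAt_dG h.smooth t u w).differentiableAt.hasFDerivAt.const_mul a).add
      ((hasFDerivAt_dG h.smooth t v w).differentiableAt.hasFDerivAt.const_mul b)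
  have h2 : (fun z' => dG G z' t (a • u + b • v) w) =ᶠ[𝓝 z]
      fun z' => a * dG G z' t u w + b * dG G z' t v w :=
    h.eventually.mono fun z' hz' => dG_lin_left hz'.smooth a b t u v w
  rw [ddG, h2.fderiv_eq, h1.fderiv]
  simp [ddG]

theorem ddG_lin_right (h : MetAt G z) (a b : ℝ) (s t u v w : F) :
    ddG G z s t w (a • u + b • v) = a * ddG G z s t w u + b * ddG G z s t w v := by
  rw [ddG_symm h, ddG_lin_left h, ddG_symm h s t u w, ddG_symm h s t v w]

theorem ddG_lin_fst (h : MetAt G z) (a b : ℝ) (s t r u v : F) :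
    ddG G z (a • s + b • t) r u v = a * ddG G z s r u v + b * ddG G z t r u v := by
  simp [ddG_eq h.smooth]

theorem ddG_lin_snd (h : MetAt G z) (a b : ℝ) (s t r u v : F) :
    ddG G z r (a • s + b • t) u v = a * ddG G z r s u v + b * ddG G z r t u v := by
  simp [ddG_eq h.smooth]

theorem chr_lin (h : MetAt G z) (a b : ℝ) (u v w x : F) :
    chr G z (a • u + b • v) w x = a * chr G z u w x + b * chr G z v w x := by
  rw [chr_apply h.smooth, chr_apply h.smooth, chr_apply h.smooth, dG_lin_dir,
    dG_lin_left h.smooth, dG_lin_left h.smooth]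
  ring

variable [FiniteDimensional ℝ F]

theorem Gam_lin (h : MetAt G z) (a b : ℝ) (u v w : F) :
    Gam G z (a • u + b • v) w = a • Gam G z u w + b • Gam G z v w := by
  refine Gam_unique h fun x => ?_
  rw [chr_lin h]
  simp [G_Gam h]

theorem Gam_lin' (h : MetAt G z) (a b : ℝ) (u v w : F) :
    Gam G z w (a • u + b • v) = a • Gam G z w u + b • Gam G z w v := by
  rw [Gam_symm h, Gam_lin h, Gam_symm h u w, Gam_symm h v w]

end

theorem num_comb {F : Type*} [NormedAddCommGroup F] [NormedSpace ℝ F] [FiniteDimensional ℝ F]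
    {G : F → F →L[ℝ] F →L[ℝ] ℝ} {z : F} (hG : MetAt G z) (a b c d : ℝ) (u v : F) :
    num G z (a • u + b • v) (c • u + d • v) = (a * d - b * c) ^ 2 * num G z u v := by
  have sw : ∀ s t u v, ddG G z s t u v = ddG G z t s u v := fun s t u v => ddG_swap hG.smooth s t u v
  have sy : ∀ s t u v, ddG G z s t u v = ddG G z s t v u := fun s t u v => ddG_symm hG s t u v
  have gs : ∀ x y, G z x y = G z y x := fun x y => hG.symm.self_of_nhds x y
  unfold num
  simp only [← G_Gam hG, Gam_lin hG, Gam_lin' hG, ddG_lin_left hG, ddG_lin_right hG,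
    ddG_lin_fst hG, ddG_lin_snd hG, map_add, map_smul, _root_.add_apply, _root_.smul_apply,
    smul_eq_mul]
  rw [Gam_symm hG v u]
  rw [sy u u v u, sy u v v u, sy v u v u, sy v v v u, sw v u u u, sw v u u v, sw v u v v,
    gs (Gam G z v v) (Gam G z u u), gs (Gam G z u v) (Gam G z u u),
    gs (Gam G z v v) (Gam G z u v)]
  ring

end Pool.Agent.Helper93.HP
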