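import Pool.Agent.Helper20.HP.Data2
import Pool.Agent.Helper20.PC.MixSphere

/-!
# The submersion `S² × S³ → S² × S²` (HOPF-F4)
-/

set_option maxSynthPendingDepth 3

open Filter Metric Module Set
open scoped Topology ContDiff RealInnerProductSpace Manifold Quaternion

namespace Pool.Agent.Helper93.HP
open Pool.Agent.Helper20.HP Pool.Agent.Helper20.PC

/-! ### algebra -/

lemma qI_re : qI.re = 0 := rfl
lemma qI_imI : qI.imI = 1 := rfl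
lemma qI_imJ : qI.imJ = 0 := rfl
lemma qI_imK : qI.imK = 0 := rfl

lemma nsq (q : ℍ[ℝ]) : ‖q‖ ^ 2 = q.re ^ 2 + q.imI ^ 2 + q.imJ ^ 2 + q.imK ^ 2 := by
  rw [sq, ← Quaternion.normSq_eq_norm_mul_self, Quaternion.normSq_def']

lemma vec_comm (w Z : ℍ[ℝ]) :
    vecL (w * Z + Z * star w) = (2 * w.re) • vecL Z + (2 : ℝ) • cr (vecL w) (vecL Z) := by
  ext i
  fin_cases i <;> simp [vecL_apply, cr] <;> ring

lemma norm_conj (q : ℍ[ℝ]) : ‖vecL (q * qI * star q)‖ = ‖q‖ ^ 2 := by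
  have h : ‖vecL (q * qI * star q)‖ ^ 2 = (‖q‖ ^ 2) ^ 2 := by
    rw [EuclideanSpace.norm_sq_eq, nsq]
    simp [vecL_apply, Fin.sum_univ_three, qI_re, qI_imI, qI_imJ, qI_imK]
    ring
  exact (pow_left_inj₀ (norm_nonneg _) (by positivity) (by norm_num)).1 h

/-- the unit vector `q i q⁻¹`. -/
noncomputable def yv (q : ℍ[ℝ]) : E3 := (‖q‖ ^ 2)⁻¹ • vecL (q * qI * star q)

lemma norm_yv {q : ℍ[ℝ]} (hq : q ≠ 0) : ‖yv q‖ = 1 := by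
  have h : ‖q‖ ≠ 0 := norm_ne_zero_iff.2 hq
  rw [yv, norm_smul, norm_conj, norm_inv, norm_pow, norm_norm]
  field_simp

/-- the second component of `prj`. -/
noncomputable def Yq (q : ℍ[ℝ]) : E3 := ‖q‖⁻¹ • vecL (q * qI * star q)

lemma Yq_eq {q : ℍ[ℝ]} (hq : q ≠ 0) : Yq q = ‖q‖ • yv q := by
  have h : ‖q‖ ≠ 0 := norm_ne_zero_iff.2 hq
  rw [yv, Yq, smul_smul]
  congr 1
  field_simp

lemma norm_Yq {q : ℍ[ℝ]} (hq : q ≠ 0) : ‖Yq q‖ = ‖q‖ := by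
  rw [Yq_eq hq, norm_smul, norm_yv hq, norm_norm, mul_one]

lemma Yq_ne {q : ℍ[ℝ]} (hq : q ≠ 0) : Yq q ≠ 0 := by
  rw [← norm_ne_zero_iff, norm_Yq hq]
  exact norm_ne_zero_iff.2 hq

lemma nn_Yq {q : ℍ[ℝ]} (hq : q ≠ 0) : nn (Yq q) = yv q := by
  have h : ‖q‖ ≠ 0 := norm_ne_zero_iff.2 hq
  rw [nn, norm_Yq hq, Yq_eq hq, smul_smul, inv_mul_cancel₀ h, one_smul]

lemma prj_eq (z : E3 × ℍ[ℝ]) : prj z = (z.1, Yq z.2) := rfl

/-! ### cross product -/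

lemma inner_E3 (a b : E3) : ⟪a, b⟫ = a 0 * b 0 + a 1 * b 1 + a 2 * b 2 := by
  simp [PiLp.inner_apply, Fin.sum_univ_three]
  ring

lemma cr_cr {y a : E3} (hy : ‖y‖ = 1) : cr y (cr a y) = a - ⟪y, a⟫ • y := by
  have h : y 0 ^ 2 + y 1 ^ 2 + y 2 ^ 2 = 1 := by
    have h1 : ⟪y, y⟫ = 1 := by rw [real_inner_self_eq_norm_sq, hy]; norm_num
    rw [inner_E3] at h1
    linarith
  ext i
  fin_cases i
  · simp [cr, inner_E3]
    linear_combination (a 0) * h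
  · simp [cr, inner_E3]
    linear_combination (a 1) * h
  · simp [cr, inner_E3]
    linear_combination (a 2) * h

lemma cr_cr' {y a : E3} (hy : ‖y‖ = 1) : cr (cr y a) y = a - ⟪y, a⟫ • y := by
  have h : y 0 ^ 2 + y 1 ^ 2 + y 2 ^ 2 = 1 := by
    have h1 : ⟪y, y⟫ = 1 := by rw [real_inner_self_eq_norm_sq, hy]; norm_num
    rw [inner_E3] at h1
    linarith
  ext i
  fin_cases i
  · simp [cr, inner_E3]
    linear_combination (a 0) * h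
  · simp [cr, inner_E3]
    linear_combination (a 1) * h
  · simp [cr, inner_E3]
    linear_combination (a 2) * h

lemma inner_cr_right (y a : E3) : ⟪y, cr a y⟫ = 0 := by
  rw [inner_E3]; simp [cr]; ring

lemma inner_cr_left (y a : E3) : ⟪y, cr y a⟫ = 0 := by
  rw [inner_E3]; simp [cr]; ring

/-! ### the derivative of `prj` -/

/-- the vertical velocity `vec (p q⁻¹)` -/
noncomputable def wv (q p : ℍ[ℝ]) : E3 := vecL (p * q⁻¹)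

lemma dl_eq_re {q : ℍ[ℝ]} (p : ℍ[ℝ]) : dl q p = (p * q⁻¹).re := by
  rw [dl_apply, Quaternion.inv_def, real_inner_comm, Quaternion.inner_def,
    Quaternion.normSq_eq_norm_mul_self, mul_smul_comm, Quaternion.re_smul, sq, smul_eq_mul]

/-- conjugation as a continuous linear map -/
noncomputable def starC : ℍ[ℝ] →L[ℝ] ℍ[ℝ] :=
  LinearMap.toContinuousLinearMap
    { toFun := fun q => star q
      map_add' := fun p q => star_add p q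
      map_smul' := fun r q => by ext <;> simp }

lemma starC_apply (q : ℍ[ℝ]) : starC q = star q := rfl

lemma hasFDerivAt_conj (q : ℍ[ℝ]) : HasFDerivAt (fun q : ℍ[ℝ] => vecL (q * qI * star q))
    (vecL ∘L (((ContinuousLinearMap.mul ℝ ℍ[ℝ]).flip (qI * star q))
      + (ContinuousLinearMap.mul ℝ ℍ[ℝ] (q * qI)) ∘L starC)) q := by
  have h1 : HasFDerivAt (fun q : ℍ[ℝ] => q * qI) ((ContinuousLinearMap.mul ℝ ℍ[ℝ]).flip qI) q :=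
    ((ContinuousLinearMap.mul ℝ ℍ[ℝ]).flip qI).hasFDerivAt
  have h2 : HasFDerivAt (fun q : ℍ[ℝ] => star q) starC q := starC.hasFDerivAt
  have h3 := HasFDerivAt.comp (g := vecL) q vecL.hasFDerivAt (h1.mul' h2)
  refine h3.congr_fderiv ?_
  ext1 p
  simp [mul_assoc, add_comm]

lemma hasFDerivAt_Yq {q : ℍ[ℝ]} (hq : q ≠ 0) : ∃ L : ℍ[ℝ] →L[ℝ] E3, HasFDerivAt Yq L q ∧
    ∀ p, L p = ‖q‖ • (dl q p • yv q + (2 : ℝ) • cr (wv q p) (yv q)) := by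
  have hn : ‖q‖ ≠ 0 := norm_ne_zero_iff.2 hq
  have h1 : HasFDerivAt (fun q : ℍ[ℝ] => ‖q‖ ^ 2) ((2 : ℝ) • innerSL ℝ q) q := by
    have := (hasStrictFDerivAt_norm_sq q).hasFDerivAt
    refine this.congr_fderiv ?_
    ext1 p
    simp
  have h2 : HasFDerivAt (fun q : ℍ[ℝ] => √(‖q‖ ^ 2)) _ q := h1.sqrt (by positivity)
  have h3 : (fun q : ℍ[ℝ] => √(‖q‖ ^ 2)) = fun q => ‖q‖ := by
    ext q; exact Real.sqrt_sq (norm_nonneg _)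
  rw [h3] at h2
  have h4 : HasFDerivAt (fun q : ℍ[ℝ] => ‖q‖⁻¹) _ q := (hasDerivAt_inv hn).comp_hasFDerivAt q h2
  have h5 := h4.smul (hasFDerivAt_conj q)
  refine ⟨_, h5, fun p => ?_⟩
  have e1 : p = (p * q⁻¹) * q := by rw [mul_assoc, inv_mul_cancel₀ hq, mul_one]
  have e2 : p * qI * star q + q * qI * star p = (p * q⁻¹) * (q * qI * star q) + (q * qI * star q) * star (p * q⁻¹) := by
    conv_lhs => rw [e1]
    simp only [star_mul, mul_assoc]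
  have e3 : vecL (q * qI * star q) = (‖q‖ ^ 2) • yv q := by
    rw [yv, smul_smul, mul_inv_cancel₀ (by positivity), one_smul]
  have e4 : vecL (p * qI * star q + q * qI * star p) = (‖q‖ ^ 2) • ((2 * dl q p) • yv q + (2 : ℝ) • cr (wv q p) (yv q)) := by
    rw [e2, vec_comm, e3, dl_eq_re, wv]
    ext i
    fin_cases i <;> simp [cr] <;> ring
  simp only [add_apply, FunLike.coe_smul, Pi.smul_apply, ContinuousLinearMap.smulRight_apply, ContinuousLinearMap.comp_apply]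
  simp only [ContinuousLinearMap.flip_apply, ContinuousLinearMap.mul_apply', starC_apply, ← mul_assoc]
  rw [e4, e3]
  simp only [innerSL_apply_apply, smul_eq_mul]
  rw [dl_apply]
  rw [Real.sqrt_sq (norm_nonneg _)]
  simp only [smul_add, smul_smul]
  match_scalars
  · field_simp
    ring
  · field_simp

lemma hasFDerivAt_prj {z : E3 × ℍ[ℝ]} (hz2 : z.2 ≠ 0) : ∃ L : E3 × ℍ[ℝ] →L[ℝ] E3 × E3,
    HasFDerivAt prj L z ∧
    ∀ a, L a = (a.1, ‖z.2‖ • (dl z.2 a.2 • yv z.2 + (2 : ℝ) • cr (wv z.2 a.2) (yv z.2))) := by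
  obtain ⟨L, h1, h2⟩ := hasFDerivAt_Yq hz2
  have h3 : HasFDerivAt (fun z : E3 × ℍ[ℝ] => Yq z.2) (L ∘L ContinuousLinearMap.snd ℝ E3 ℍ[ℝ]) z :=
    HasFDerivAt.comp (g := Yq) z h1 hasFDerivAt_snd
  have h4 : HasFDerivAt (fun z : E3 × ℍ[ℝ] => z.1) (ContinuousLinearMap.fst ℝ E3 ℍ[ℝ]) z := hasFDerivAt_fst
  exact ⟨_, h4.prodMk h3, fun a => Prod.ext rfl (h2 a.2)⟩

lemma fderiv_prj_apply {z : E3 × ℍ[ℝ]} (hz2 : z.2 ≠ 0) (a : E3 × ℍ[ℝ]) :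
    fderiv ℝ prj z a
      = (a.1, ‖z.2‖ • (dl z.2 a.2 • yv z.2 + (2 : ℝ) • cr (wv z.2 a.2) (yv z.2))) := by
  obtain ⟨L, h1, h2⟩ := hasFDerivAt_prj hz2
  rw [h1.fderiv, h2]

/-! ### the metrics -/

lemma Sb_symm (κ ε T : ℝ) (x a b : E3) : Sb κ ε T x a b = Sb κ ε T x b a := by
  simp only [Sb, SbG, dotG, HbG, FbG, PhG, smul_eq_mul]
  ring

lemma Mf_apply (κ ε T δ : ℝ) (x a b : E3) :
    Mf κ ε T δ x a b = δ ^ 2 * ⟪a, b⟫ - δ ^ 4 * Sb κ ε T x a b := by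
  simp [Mf, inL_apply]

lemma Mf_symm (κ ε T δ : ℝ) (x a b : E3) : Mf κ ε T δ x a b = Mf κ ε T δ x b a := by
  rw [Mf_apply, Mf_apply, Sb_symm, real_inner_comm]

/-- the value of the connection form -/
noncomputable def Wv (κ ε : ℝ) (z a : E3 × ℍ[ℝ]) : E3 :=
  (2 : ℝ) • wv z.2 a.2 + AvL κ ε (nn z.1) (dn z.1 a.1)

lemma vecL_qimL (v : E3) : vecL (qimL v) = v := by
  ext i
  fin_cases i <;> rfl

lemma reL_qimL (v : E3) : reL (qimL v) = 0 := rfl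

lemma lam_apply (κ ε : ℝ) (z a : E3 × ℍ[ℝ]) :
    lam (AE κ ε) z a = a.2 * z.2⁻¹ + (1/2 : ℝ) • qimL (AvL κ ε (nn z.1) (dn z.1 a.1)) := by
  simp [lam, AE]

lemma KK_apply (κ ε T δ : ℝ) (z a b : E3 × ℍ[ℝ]) :
    KK (hE κ) (NE κ ε T δ) (AE κ ε) z a b = dl z.1 a.1 * dl z.1 b.1
      + hhat κ (nn z.1) (dn z.1 a.1) (dn z.1 b.1) + dl z.2 a.2 * dl z.2 b.2
      + Mf κ ε T δ (nn z.1) (Wv κ ε z a) (Wv κ ε z b) := by
  have e1 : ∀ a : E3 × ℍ[ℝ], vecL (lam (AE κ ε) z a) = (1/2 : ℝ) • Wv κ ε z a := by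
    intro a
    rw [lam_apply, map_add, map_smul, vecL_qimL, Wv, wv]
    module
  have e2 : ∀ a : E3 × ℍ[ℝ], reL (lam (AE κ ε) z a) = dl z.2 a.2 := by
    intro a
    rw [lam_apply, map_add, map_smul, reL_qimL, dl_eq_re, smul_zero, add_zero]
    rfl
  have e3 : NE κ ε T δ z.1 (lam (AE κ ε) z a) (lam (AE κ ε) z b)
      = dl z.2 a.2 * dl z.2 b.2 + Mf κ ε T δ (nn z.1) (Wv κ ε z a) (Wv κ ε z b) := by
    simp only [NE, add_apply, FunLike.coe_smul, Pi.smul_apply, ContinuousLinearMap.bilinearComp_apply,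
      ContinuousLinearMap.smulRight_apply, e1, e2, map_smul, smul_eq_mul]
    ring
  have e4 : hE κ z.1 a.1 b.1 = dl z.1 a.1 * dl z.1 b.1 + hhat κ (nn z.1) (dn z.1 a.1) (dn z.1 b.1) := by
    simp [hE]
  simp only [KK, add_apply, ContinuousLinearMap.bilinearComp_apply]
  rw [e3]
  simp only [ContinuousLinearMap.coe_fst', e4]
  ring

lemma bet_apply (κ ε T δ : ℝ) {z : E3 × ℍ[ℝ]} (hz2 : z.2 ≠ 0) (a : E3 × ℍ[ℝ]) :
    bet κ ε T δ z a = (√(Mf κ ε T δ (nn z.1) (yv z.2) (yv z.2)))⁻¹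
      * Mf κ ε T δ (nn z.1) (yv z.2) (Wv κ ε z a) := by
  have h : nn (prj z).2 = yv z.2 := nn_Yq hz2
  simp only [bet, h, Wv, wv]
  simp
  ring

lemma dl_prj {z : E3 × ℍ[ℝ]} (hz2 : z.2 ≠ 0) (a : E3 × ℍ[ℝ]) :
    dl (prj z).2 (fderiv ℝ prj z a).2 = dl z.2 a.2 := by
  have hn : ‖z.2‖ ≠ 0 := norm_ne_zero_iff.2 hz2
  have hy := norm_yv hz2
  rw [fderiv_prj_apply hz2, dl_apply]
  change (‖Yq z.2‖ ^ 2)⁻¹ * ⟪Yq z.2, ‖z.2‖ • (dl z.2 a.2 • yv z.2 + (2 : ℝ) • cr (wv z.2 a.2) (yv z.2))⟫ = _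
  rw [norm_Yq hz2, Yq_eq hz2, real_inner_smul_left, real_inner_smul_right, inner_add_right,
    real_inner_smul_right, real_inner_smul_right, inner_cr_right, real_inner_self_eq_norm_sq, hy]
  field_simp
  ring

lemma dn_prj {z : E3 × ℍ[ℝ]} (hz2 : z.2 ≠ 0) (a : E3 × ℍ[ℝ]) :
    dn (prj z).2 (fderiv ℝ prj z a).2 = (2 : ℝ) • cr (wv z.2 a.2) (yv z.2) := by
  have hn : ‖z.2‖ ≠ 0 := norm_ne_zero_iff.2 hz2
  rw [dn_apply, dl_prj hz2, fderiv_prj_apply hz2]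
  change ‖Yq z.2‖⁻¹ • (‖z.2‖ • (dl z.2 a.2 • yv z.2 + (2 : ℝ) • cr (wv z.2 a.2) (yv z.2)) - dl z.2 a.2 • Yq z.2) = _
  rw [norm_Yq hz2, Yq_eq hz2]
  match_scalars
  · field_simp
    ring
  · field_simp

lemma W2_prj (κ ε : ℝ) {z : E3 × ℍ[ℝ]} (hz2 : z.2 ≠ 0) (a : E3 × ℍ[ℝ]) :
    W2 κ ε (nn z.1) (yv z.2) (dn z.1 a.1, (2 : ℝ) • cr (wv z.2 a.2) (yv z.2))
      = Wv κ ε z a - (2 * ⟪yv z.2, wv z.2 a.2⟫) • yv z.2 := by
  simp only [W2, add_apply, ContinuousLinearMap.comp_apply, ContinuousLinearMap.coe_fst',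
    ContinuousLinearMap.coe_snd', map_smul, crL_apply]
  rw [cr_cr (norm_yv hz2), Wv]
  module

lemma toS_nn (x₀ : sphere (0 : E3) 1) {x : E3} (hx : x ≠ 0) : (toS x₀ x : E3) = nn x := toS_val x₀ hx

lemma ext_apply (κ ε T δ : ℝ) (p : sphere (0 : E3) 1 × sphere (0 : E3) 1) {z : E3 × ℍ[ℝ]}
    (hz1 : z.1 ≠ 0) (hz2 : z.2 ≠ 0)
    (hM : 0 < Mf κ ε T δ (nn z.1) (yv z.2) (yv z.2)) (a b : E3 × ℍ[ℝ]) :
    extM p (g2 κ ε T δ) (prj z) (fderiv ℝ prj z a) (fderiv ℝ prj z b)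
      = dl z.1 a.1 * dl z.1 b.1 + dl z.2 a.2 * dl z.2 b.2
      + hhat κ (nn z.1) (dn z.1 a.1) (dn z.1 b.1)
      + Mf κ ε T δ (nn z.1) (Wv κ ε z a) (Wv κ ε z b)
      - (Mf κ ε T δ (nn z.1) (yv z.2) (yv z.2))⁻¹ * (Mf κ ε T δ (nn z.1) (yv z.2) (Wv κ ε z a)
        * Mf κ ε T δ (nn z.1) (yv z.2) (Wv κ ε z b)) := by
  have h1 : ((toS p.2 (prj z).2 : sphere (0 : E3) 1) : E3) = yv z.2 := by
    rw [← nn_Yq hz2]; exact toS_nn p.2 (Yq_ne hz2)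
  have h2 : ((toS p.1 (prj z).1 : sphere (0 : E3) 1) : E3) = nn z.1 := toS_nn p.1 hz1
  have h3 : (fderiv ℝ prj z a).1 = a.1 := by rw [fderiv_prj_apply hz2]
  have h4 : (fderiv ℝ prj z b).1 = b.1 := by rw [fderiv_prj_apply hz2]
  rw [extM_apply, dl_prj hz2, dl_prj hz2, dn_prj hz2, dn_prj hz2, h3, h4]
  simp only [g2, h1, h2]
  simp only [sub_apply, add_apply, FunLike.coe_smul, Pi.smul_apply,
    ContinuousLinearMap.bilinearComp_apply, ContinuousLinearMap.smulRight_apply,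
    ContinuousLinearMap.comp_apply]
  change dl z.1 a.1 * dl z.1 b.1 + dl z.2 a.2 * dl z.2 b.2 +
    (hhat κ (nn z.1) (dn z.1 a.1) (dn z.1 b.1) + Mf κ ε T δ (nn z.1)
      (W2 κ ε (nn z.1) (yv z.2) (dn z.1 a.1, (2 : ℝ) • cr (wv z.2 a.2) (yv z.2)))
      (W2 κ ε (nn z.1) (yv z.2) (dn z.1 b.1, (2 : ℝ) • cr (wv z.2 b.2) (yv z.2)))
      - (Mf κ ε T δ (nn z.1) (yv z.2) (yv z.2))⁻¹ *
        (Mf κ ε T δ (nn z.1) (yv z.2) (W2 κ ε (nn z.1) (yv z.2) (dn z.1 a.1, (2 : ℝ) • cr (wv z.2 a.2) (yv z.2)))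
          * Mf κ ε T δ (nn z.1) (yv z.2) (W2 κ ε (nn z.1) (yv z.2) (dn z.1 b.1, (2 : ℝ) • cr (wv z.2 b.2) (yv z.2))))) = _
  rw [W2_prj κ ε hz2, W2_prj κ ε hz2]
  simp only [map_sub, map_smul, sub_apply, FunLike.coe_smul, Pi.smul_apply, smul_eq_mul]
  rw [Mf_symm κ ε T δ (nn z.1) (Wv κ ε z a) (yv z.2)]
  field_simp
  ring

/-! ### smoothness -/

lemma contDiffAt_Yq {q : ℍ[ℝ]} (hq : q ≠ 0) {k : WithTop ℕ∞} : ContDiffAt ℝ k Yq q := by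
  have hn : ‖q‖ ≠ 0 := norm_ne_zero_iff.2 hq
  have h1 : ContDiffAt ℝ k (fun q : ℍ[ℝ] => ‖q‖⁻¹) q := (contDiffAt_norm ℝ hq).inv hn
  have h2 : ContDiffAt ℝ k (fun q : ℍ[ℝ] => q * qI * star q) q :=
    (contDiffAt_id.mul contDiffAt_const).mul starC.contDiff.contDiffAt
  exact h1.smul (vecL.contDiff.contDiffAt.comp q h2)

lemma contDiffAt_prj {z : E3 × ℍ[ℝ]} (hz2 : z.2 ≠ 0) {k : WithTop ℕ∞} : ContDiffAt ℝ k prj z :=
  contDiffAt_fst.prodMk (ContDiffAt.comp (g := Yq) z (contDiffAt_Yq hz2) contDiffAt_snd)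

lemma contDiffAt_nn {x : E3} (hx : x ≠ 0) {k : WithTop ℕ∞} : ContDiffAt ℝ k nn x :=
  ((contDiffAt_norm ℝ hx).inv (norm_ne_zero_iff.2 hx)).smul contDiffAt_id

lemma contDiff_coord (i : Fin 3) {k : WithTop ℕ∞} : ContDiff ℝ k (fun x : E3 => x i) :=
  (EuclideanSpace.proj (𝕜 := ℝ) i).contDiff

lemma contDiff_Mf (κ ε T δ : ℝ) {k : WithTop ℕ∞} : ContDiff ℝ k (Mf κ ε T δ) := by
  rw [contDiff_iff_contDiffAt]
  intro x
  refine contDiffAt_of_apply fun a => contDiffAt_of_apply fun b => ?_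
  simp only [Mf_apply, Sb, SbG, dotG, HbG, FbG, PhG, smul_eq_mul]
  have h0 : ContDiffAt ℝ k (fun x : E3 => x 0) x := (contDiff_coord 0).contDiffAt
  have h1 : ContDiffAt ℝ k (fun x : E3 => x 1) x := (contDiff_coord 1).contDiffAt
  have h2 : ContDiffAt ℝ k (fun x : E3 => x 2) x := (contDiff_coord 2).contDiffAt
  fun_prop

lemma sg_pos {κ : ℝ} (hκ : |κ| ≤ 1/10) {x : E3} (hx : ‖x‖ = 1) : 0 < sg κ x := by
  have h : x 0 ^ 2 + x 1 ^ 2 + x 2 ^ 2 = 1 := by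
    have h1 : ⟪x, x⟫ = 1 := by rw [real_inner_self_eq_norm_sq, hx]; norm_num
    rw [inner_E3] at h1
    linarith
  have h2 : |Hb x x| ≤ 2 := by
    rw [Hb, HbG, abs_le]
    constructor <;> nlinarith [sq_nonneg (x 0 + x 1 + x 2), sq_nonneg (x 0 - x 1 - x 2), sq_nonneg (x 1 - x 2)]
  have h3 : |κ * Hb x x| ≤ 1/5 := by
    rw [abs_mul]
    calc |κ| * |Hb x x| ≤ 1/10 * 2 := mul_le_mul hκ h2 (abs_nonneg _) (by norm_num)
      _ = 1/5 := by norm_num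
  have h4 := (abs_le.1 h3).2
  rw [sg]
  linarith

lemma contDiffAt_AvL {κ ε : ℝ} (hκ : |κ| ≤ 1/10) {x : E3} (hx : ‖x‖ = 1) {k : WithTop ℕ∞} :
    ContDiffAt ℝ k (AvL κ ε) x := by
  have hs := (sg_pos hκ hx).ne'
  have h0 : ContDiffAt ℝ k (fun x : E3 => x 0) x := (contDiff_coord 0).contDiffAt
  have h1 : ContDiffAt ℝ k (fun x : E3 => x 1) x := (contDiff_coord 1).contDiffAt
  have h2 : ContDiffAt ℝ k (fun x : E3 => x 2) x := (contDiff_coord 2).contDiffAt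
  have hsg : ContDiffAt ℝ k (fun x : E3 => sg κ x) x := by
    simp only [sg, Hb, HbG]
    fun_prop
  have hsi : ContDiffAt ℝ k (fun x : E3 => (sg κ x)⁻¹) x := hsg.inv hs
  refine contDiffAt_of_apply fun u => ?_
  rw [contDiffAt_euclidean]
  intro i
  simp only [AvL_apply, Av, div_eq_mul_inv, rr, inner_E3]
  fin_cases i <;> simp [cr, Hv] <;> fun_prop

lemma contDiffAt_quat_inv {q : ℍ[ℝ]} (hq : q ≠ 0) {k : WithTop ℕ∞} :
    ContDiffAt ℝ k (fun q : ℍ[ℝ] => q⁻¹) q := by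
  have hn : ‖q‖ ≠ 0 := norm_ne_zero_iff.2 hq
  have h1 : ContDiffAt ℝ k (fun q : ℍ[ℝ] => (‖q‖ ^ 2)⁻¹) q :=
    ((contDiffAt_norm ℝ hq).pow 2).inv (by positivity)
  have h2 : (fun q : ℍ[ℝ] => q⁻¹) = fun q : ℍ[ℝ] => (‖q‖ ^ 2)⁻¹ • starC q := by
    ext1 q
    rw [Quaternion.inv_def, Quaternion.normSq_eq_norm_mul_self, sq]; rfl
  rw [h2]
  exact h1.smul starC.contDiff.contDiffAt

lemma norm_nn {x : E3} (hx : x ≠ 0) : ‖nn x‖ = 1 := norm_normalize hx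

lemma Mf_yv_pos {κ ε T δ : ℝ} (hM : ∀ y : E3, ‖y‖ = 1 → ∀ a, a ≠ 0 → 0 < Mf κ ε T δ y a a)
    {z : E3 × ℍ[ℝ]} (hz1 : z.1 ≠ 0) (hz2 : z.2 ≠ 0) :
    0 < Mf κ ε T δ (nn z.1) (yv z.2) (yv z.2) :=
  hM _ (norm_nn hz1) _ (norm_ne_zero_iff.1 (by rw [norm_yv hz2]; norm_num))

lemma contDiffAt_bet {κ ε T δ : ℝ} (hκ : |κ| ≤ 1/10)
    (hM : ∀ y : E3, ‖y‖ = 1 → ∀ a, a ≠ 0 → 0 < Mf κ ε T δ y a a)
    {z : E3 × ℍ[ℝ]} (hz1 : z.1 ≠ 0) (hz2 : z.2 ≠ 0) {k : WithTop ℕ∞} :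
    ContDiffAt ℝ k (bet κ ε T δ) z := by
  have hy : ContDiffAt ℝ k (fun z : E3 × ℍ[ℝ] => nn (prj z).2) z := by
    have h1 : ContDiffAt ℝ k (fun z : E3 × ℍ[ℝ] => (prj z).2) z :=
      contDiffAt_snd.comp z (contDiffAt_prj hz2)
    exact ContDiffAt.comp (g := nn) z (contDiffAt_nn (Yq_ne hz2)) h1
  have hx : ContDiffAt ℝ k (fun z : E3 × ℍ[ℝ] => nn z.1) z :=
    ContDiffAt.comp (g := nn) z (contDiffAt_nn hz1) contDiffAt_fst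
  have hMf : ContDiffAt ℝ k (fun z : E3 × ℍ[ℝ] => Mf κ ε T δ (nn z.1)) z :=
    (contDiff_Mf κ ε T δ).contDiffAt.comp z hx
  have hMy : ContDiffAt ℝ k (fun z : E3 × ℍ[ℝ] => Mf κ ε T δ (nn z.1) (nn (prj z).2)) z :=
    hMf.clm_apply hy
  have hMyy : ContDiffAt ℝ k (fun z : E3 × ℍ[ℝ] => Mf κ ε T δ (nn z.1) (nn (prj z).2) (nn (prj z).2)) z :=
    hMy.clm_apply hy
  have hpos : 0 < Mf κ ε T δ (nn z.1) (nn (prj z).2) (nn (prj z).2) := by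
    have h : nn (prj z).2 = yv z.2 := nn_Yq hz2
    rw [h]; exact Mf_yv_pos hM hz1 hz2
  have hsq : ContDiffAt ℝ k
      (fun z : E3 × ℍ[ℝ] => (√(Mf κ ε T δ (nn z.1) (nn (prj z).2) (nn (prj z).2)))⁻¹) z :=
    (hMyy.sqrt hpos.ne').inv (Real.sqrt_ne_zero'.2 hpos)
  have hA : ContDiffAt ℝ k (fun z : E3 × ℍ[ℝ] => AvL κ ε (nn z.1)) z :=
    ContDiffAt.comp (g := AvL κ ε) z (contDiffAt_AvL hκ (norm_nn hz1)) hx
  have hdn : ContDiffAt ℝ k (fun z : E3 × ℍ[ℝ] => dn z.1) z :=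
    ContDiffAt.comp (g := (dn : E3 → E3 →L[ℝ] E3)) z (contDiffAt_dn hz1) contDiffAt_fst
  have hinv : ContDiffAt ℝ k (fun z : E3 × ℍ[ℝ] => z.2⁻¹) z :=
    ContDiffAt.comp (g := fun q : ℍ[ℝ] => q⁻¹) z (contDiffAt_quat_inv hz2) contDiffAt_snd
  refine contDiffAt_of_apply fun a => ?_
  have h1 : ContDiffAt ℝ k (fun z : E3 × ℍ[ℝ] => (2 : ℝ) • vecL (a.2 * z.2⁻¹)
      + AvL κ ε (nn z.1) (dn z.1 a.1)) z := by
    have e1 : ContDiffAt ℝ k (fun z : E3 × ℍ[ℝ] => a.2 * z.2⁻¹) z := contDiffAt_const.mul hinv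
    have e2 : ContDiffAt ℝ k (fun z : E3 × ℍ[ℝ] => vecL (a.2 * z.2⁻¹)) z :=
      ContDiffAt.comp (g := vecL) z vecL.contDiff.contDiffAt e1
    exact (e2.const_smul (2 : ℝ)).add (hA.clm_apply (hdn.clm_apply contDiffAt_const))
  have h2 := hsq.smul (hMy.clm_apply h1)
  refine h2.congr_of_eventuallyEq (Eventually.of_forall fun z => ?_)
  simp [bet]
  ring

/-! ### surjectivity -/

lemma surj {κ ε T δ : ℝ} (hM : ∀ y : E3, ‖y‖ = 1 → ∀ a, a ≠ 0 → 0 < Mf κ ε T δ y a a)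
    {z : E3 × ℍ[ℝ]} (hz1 : z.1 ≠ 0) (hz2 : z.2 ≠ 0) (a' : E3 × E3) (s : ℝ) :
    ∃ a, fderiv ℝ prj z a = a' ∧ bet κ ε T δ z a = s := by
  have hn : ‖z.2‖ ≠ 0 := norm_ne_zero_iff.2 hz2
  have hpos := Mf_yv_pos hM hz1 hz2
  have hsq : √(Mf κ ε T δ (nn z.1) (yv z.2) (yv z.2)) ≠ 0 := Real.sqrt_ne_zero'.2 hpos
  have hy := norm_yv hz2
  set M := Mf κ ε T δ (nn z.1) with hMdef
  set y := yv z.2 with hydef
  set c : E3 := ‖z.2‖⁻¹ • a'.2 with hc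
  set A : E3 := AvL κ ε (nn z.1) (dn z.1 a'.1) with hA
  set t : ℝ := (s * √(M y y) - M y (cr y c + A)) / (2 * M y y) with ht
  set om0 : E3 := (1/2 : ℝ) • cr y c + t • y with hom
  set w : ℍ[ℝ] := ⟨⟪y, c⟫, om0 0, om0 1, om0 2⟩ with hw
  have hwq : w * z.2 * z.2⁻¹ = w := by rw [mul_assoc, mul_inv_cancel₀ hz2, mul_one]
  have h1 : wv z.2 (w * z.2) = om0 := by
    rw [wv, hwq, vecL_apply]
    ext i
    fin_cases i <;> rfl
  have h2 : dl z.2 (w * z.2) = ⟪y, c⟫ := by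
    rw [dl_eq_re, hwq]
  have h3 : cr y y = 0 := by
    ext i; fin_cases i <;> simp [cr] <;> ring
  refine ⟨(a'.1, w * z.2), ?_, ?_⟩
  · rw [fderiv_prj_apply hz2]
    refine Prod.ext rfl ?_
    change ‖z.2‖ • (dl z.2 (w * z.2) • yv z.2 + (2 : ℝ) • cr (wv z.2 (w * z.2)) (yv z.2)) = a'.2
    rw [h1, h2, ← hydef]
    have h4 : (2 : ℝ) • cr om0 y = c - ⟪y, c⟫ • y := by
      have h5 : cr om0 y = (1/2 : ℝ) • cr (cr y c) y + t • cr y y := by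
        simp only [← crL_apply]
        rw [hom, map_add, map_smul, map_smul]
        simp
      rw [h5, h3, cr_cr' hy]
      module
    have h5 : a'.2 = ‖z.2‖ • c := by rw [hc, smul_smul, mul_inv_cancel₀ hn, one_smul]
    rw [h4, h5]
    module
  · rw [bet_apply κ ε T δ hz2]
    have h6 : Wv κ ε z (a'.1, w * z.2) = (cr y c + A) + (2 * t) • y := by
      rw [Wv]
      change (2 : ℝ) • wv z.2 (w * z.2) + AvL κ ε (nn z.1) (dn z.1 a'.1) = _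
      rw [h1, hom]
      module
    rw [h6, ← hMdef, ← hydef, map_add (M y), map_smul (M y), ht, smul_eq_mul]
    have hpos' : M y y ≠ 0 := hpos.ne'
    field_simp
    ring

theorem submersion {κ ε T δ : ℝ} (hκ : |κ| ≤ 1/10) (hM : ∀ y : E3, ‖y‖ = 1 → ∀ a, a ≠ 0 → 0 < Mf κ ε T δ y a a)
    (p : sphere (0 : E3) 1 × sphere (0 : E3) 1) {z : E3 × ℍ[ℝ]} (hz1 : z.1 ≠ 0) (hz2 : z.2 ≠ 0) :
    ContDiffAt ℝ 3 prj z ∧ ContDiffAt ℝ 2 (bet κ ε T δ) z ∧ (prj z).1 ≠ 0 ∧ (prj z).2 ≠ 0 ∧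
    (∀ (a' : E3 × E3) (s : ℝ), ∃ a, fderiv ℝ prj z a = a' ∧ bet κ ε T δ z a = s) ∧
    (∀ a b, KK (hE κ) (NE κ ε T δ) (AE κ ε) z a b
      = extM p (g2 κ ε T δ) (prj z) (fderiv ℝ prj z a) (fderiv ℝ prj z b)
        + bet κ ε T δ z a * bet κ ε T δ z b) := by
  refine ⟨contDiffAt_prj hz2, contDiffAt_bet hκ hM hz1 hz2, hz1, Yq_ne hz2, surj hM hz1 hz2,
    fun a b => ?_⟩
  have hpos := Mf_yv_pos hM hz1 hz2
  rw [KK_apply, ext_apply κ ε T δ p hz1 hz2 hpos, bet_apply κ ε T δ hz2, bet_apply κ ε T δ hz2]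
  have h1 : (√(Mf κ ε T δ (nn z.1) (yv z.2) (yv z.2)))⁻¹ * (√(Mf κ ε T δ (nn z.1) (yv z.2) (yv z.2)))⁻¹
      = (Mf κ ε T δ (nn z.1) (yv z.2) (yv z.2))⁻¹ := by
    rw [← mul_inv, Real.mul_self_sqrt hpos.le]
  rw [← h1]
  ring

end Pool.Agent.Helper93.HP
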